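import Pool.Agent.H14.Pa1
set_option autoImplicit false

namespace Pool.Agent.Results.MP_8cb698_co.MiddleGap
open Finset Equiv

/-- Strong up-set: closed under exchanging the entries i < j of an inversion. -/
def StrongUp {n : ℕ} (A : Finset (Perm (Fin n))) : Prop :=
  ∀ a ∈ A, ∀ i j : Fin n, i < j → a.symm j < a.symm i → swap i j * a ∈ A

/-- Number of positions k ≤ n/2 holding a value > n/2 (positions and values counted from 1). -/
def m {n : ℕ} (a : Perm (Fin n)) : ℕ :=
  #(univ.filter fun k : Fin n => 2 * ((k : ℕ) + 1) ≤ n ∧ n < 2 * ((a k : ℕ) + 1))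

/-- The middle-gap measure of a family. -/
noncomputable def mu {n : ℕ} (q : ℝ) (A : Finset (Perm (Fin n))) : ℝ :=
  ∑ a ∈ A, q ^ m a / ∑ b : Perm (Fin n), q ^ m b

open Pool.Agent.H14.Pa in
theorem result (n : ℕ) (q : ℝ) (hq : 0 < q) (A B : Finset (Perm (Fin n))) (hA : StrongUp A)
    (hB : StrongUp B) : mu q A * mu q B ≤ mu q (A ∩ B) := by
  have up : ∀ A : Finset (Perm (Fin n)), StrongUp A → Up fun a => if a ∈ A then (1 : ℝ) else 0 :=
    fun A hA => ⟨fun a => by positivity, fun a i j h1 h2 => by
      by_cases h : a ∈ A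
      · simp [h, hA a h i j h1 h2]
      · simp only [h, if_false]; positivity⟩
  have h := main (Nat.div_le_self n 2) (fun v => if n < 2 * ((v : ℕ) + 1) then q else 1)
    (fun v => by positivity) _ _ (up A hA) (up B hB) (fun a => q ^ m a) fun a => by
      rw [prod_ite, prod_const_one, mul_one, prod_const, filter_filter, m]
      congr 2
      exact filter_congr fun k _ => and_congr_left' (by omega)
  have Z : 0 < ∑ b : Perm (Fin n), q ^ m b := sum_pos (fun _ _ => by positivity) univ_nonempty
  simp only [mul_ite, mul_one, mul_zero, sum_ite_mem, univ_inter, inter_comm B] at h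
  simp only [mu, ← sum_div]
  rw [div_mul_div_comm, div_le_div_iff₀ (mul_pos Z Z) Z]
  nlinarith [mul_le_mul_of_nonneg_right h Z.le]

end Pool.Agent.Results.MP_8cb698_co.MiddleGap
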